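import Mathlib

/-!
# Single-orbit locality is not bounded in terms of the locality of a general characterization

For every `N` we give a field `K` with `2 ^ t` elements and an affine-invariant property `P` of
functions `K → F_2` which has a 6-local characterization but has no `k'`-single orbit
characterization with `k' ≤ N`.

Let `m_0, m_1, …` be pairwise coprime numbers at least five, `t` the product of the first `N + 1` of
them and `e_n` a number with `e_n = 1 mod m_n` and `e_n = 0 mod m_i` for `i ≠ n`. The property is the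
set of all functions that satisfy all linear constraints on six points which hold for the constants,
for all `Tr (a x)` and for all `Tr (a x ^ (1 + 2 ^ (e_n + e_m)))`, `n ≠ m`.

The function `Tr (a x ^ (1 + 2 ^ (2 e_n)))` is not in the property: there are six points
`x_1, …, x_6` of the subfield with `2 ^ (m_n)` elements with `∑ x_i = ∑ x_i ^ 3 = 0 ≠ ∑ x_i ^ 5`. On
the other hand, let `α_1, …, α_k` be the points of a single orbit characterization. For every `n`
there are coefficients `λ^n_i` with `∑ λ^n_i α_i ^ (1 + 2 ^ (2 e_n)) ≠ 0` and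
`∑ λ^n_i α_i ^ (1 + 2 ^ (e_n + e_m)) = 0` for `m ≠ n`, and it follows that the `N + 1` vectors
`(α_i ^ (2 ^ (e_n)))_i` of `K ^ k` are linearly independent.
-/

set_option autoImplicit false

namespace Pool.Agent.Results.MP_cb1103_lc.UnboundedOrbitLocality

/-! ### Definitions -/

section defs

variable {F K : Type} [Field F] [Field K]

/-- A property: an `F`-subspace `P` of the space of all functions `K → F`. It is affine-invariant if
`f ∈ P` implies that `x ↦ f (a x + b)` is in `P` for all `a ≠ 0` and `b` in `K`. -/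
def AffineInvariant (P : Submodule F (K → F)) : Prop :=
  ∀ f ∈ P, ∀ a b : K, a ≠ 0 → (fun x => f (a * x + b)) ∈ P

/-- A `k`-local constraint: points `α_1, …, α_k` of `K` and a proper subset `S` of `F ^ k`. -/
structure Constraint (F K : Type) (k : ℕ) where
  /-- the points -/
  pts : Fin k → K
  /-- the allowed tuples of values -/
  S : Set (Fin k → F)
  /-- not all tuples are allowed -/
  proper : S ≠ Set.univ

/-- `f` satisfies the constraint `C` if its tuple of values at the points of `C` is allowed. -/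
def Sat {k : ℕ} (f : K → F) (C : Constraint F K k) : Prop := (fun i => f (C.pts i)) ∈ C.S

/-- `P` has a `k`-local characterization: for some set of `k`-local constraints, `P` is the set of
all functions that satisfy all of them. -/
def HasLocalCharacterization (k : ℕ) (P : Submodule F (K → F)) : Prop :=
  ∃ 𝒞 : Set (Constraint F K k), ∀ f : K → F, f ∈ P ↔ ∀ C ∈ 𝒞, Sat f C

/-- The constraint `C ∘ π` for the map `π (x) = a x + b`. -/
def Constraint.comp {k : ℕ} (C : Constraint F K k) (a b : K) : Constraint F K k :=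
  ⟨fun i => a * C.pts i + b, C.S, C.proper⟩

/-- `P` has a `k`-single orbit characterization: for some `k`-local constraint `C`, the constraints
`C ∘ π`, where `π (x) = a x + b` with `a ≠ 0`, characterize `P`. -/
def HasSingleOrbitCharacterization (k : ℕ) (P : Submodule F (K → F)) : Prop :=
  ∃ C : Constraint F K k, ∀ f : K → F, f ∈ P ↔ ∀ a b : K, a ≠ 0 → Sat f (C.comp a b)

/-- The least `k` such that `P` has a `k`-single orbit characterization. -/
noncomputable def kPrime (P : Submodule F (K → F)) : ℕ :=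
  sInf {k | HasSingleOrbitCharacterization k P}

end defs

/-! ### Six points -/

section six

variable {L : Type} [Field L] [CharP L 2] [Finite L]

theorem six_points (h : 16 ≤ Nat.card L) : ∃ x : Fin 6 → L,
    ∑ i, x i = 0 ∧ ∑ i, x i ^ 3 = 0 ∧ ∑ i, x i ^ 5 ≠ 0 := by
  classical
  have := Fintype.ofFinite L
  rw [Nat.card_eq_fintype_card] at h
  -- ordered pairs of distinct nonzero elements
  set s : Finset (L × L) := Finset.univ.filter (fun p => p.1 ≠ 0 ∧ p.2 ≠ 0 ∧ p.1 ≠ p.2) with hs
  set u : Finset L := Finset.univ.erase 0 with hu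
  have hucard : u.card = Fintype.card L - 1 := by
    rw [hu, Finset.card_erase_of_mem (Finset.mem_univ _), Finset.card_univ]
  have hs2 : s = u.offDiag := by
    ext p
    simp only [hs, hu, Finset.mem_filter, Finset.mem_univ, true_and, Finset.mem_offDiag,
      Finset.mem_erase, and_true]
  have hscard : s.card = (Fintype.card L - 1) * (Fintype.card L - 1) - (Fintype.card L - 1) := by
    rw [hs2, Finset.offDiag_card, hucard]
  have hmaps : ∀ p ∈ s, p.1 * p.2 * (p.1 + p.2) ∈ u := by
    intro p hp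
    rw [hs, Finset.mem_filter] at hp
    obtain ⟨-, h1, h2, h3⟩ := hp
    rw [hu, Finset.mem_erase]
    refine ⟨mul_ne_zero (mul_ne_zero h1 h2) ?_, Finset.mem_univ _⟩
    intro h0
    exact h3 (by rwa [CharTwo.add_eq_zero] at h0)
  have hlt : u.card * 6 < s.card := by
    rw [hscard, hucard]
    obtain ⟨c, hc⟩ : ∃ c, Fintype.card L - 1 = c + 9 := ⟨Fintype.card L - 10, by omega⟩
    rw [hc]
    have : (c + 9) * (c + 9) - (c + 9) = (c + 9) * (c + 8) := by
      rw [show c + 9 = (c + 8) + 1 from rfl, Nat.mul_succ, Nat.add_sub_cancel]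
    rw [this]
    nlinarith
  obtain ⟨π, -, hπ⟩ := Finset.exists_lt_card_fiber_of_mul_lt_card_of_maps_to hmaps hlt
  have hne : (s.filter (fun p => p.1 * p.2 * (p.1 + p.2) = π)).Nonempty := by
    rw [← Finset.card_pos]; omega
  obtain ⟨⟨a, b⟩, hab⟩ := hne
  rw [Finset.mem_filter] at hab
  obtain ⟨habs, habπ⟩ := hab
  rw [hs, Finset.mem_filter] at habs
  obtain ⟨-, ha0, hb0, hab⟩ := habs
  simp only at ha0 hb0 hab habπ
  -- the six ordered pairs in the plane of `a` and `b`
  obtain ⟨⟨c, d⟩, hcd, hnot⟩ : ∃ p ∈ s.filter (fun p => p.1 * p.2 * (p.1 + p.2) = π),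
      p ∉ ({(a, b), (b, a), (a, a + b), (a + b, a), (b, a + b), (a + b, b)} : Finset (L × L)) := by
    by_contra hcon
    push Not at hcon
    have h1 := Finset.card_le_card (fun p hp => hcon p hp)
    have h2 : ({(a, b), (b, a), (a, a + b), (a + b, a), (b, a + b), (a + b, b)} :
        Finset (L × L)).card ≤ 6 := Finset.card_le_six
    omega
  rw [Finset.mem_filter] at hcd
  obtain ⟨hcds, hcdπ⟩ := hcd
  rw [hs, Finset.mem_filter] at hcds
  obtain ⟨-, hc0, hd0, hcd⟩ := hcds
  simp only at hc0 hd0 hcd hcdπ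
  have h2 : (2 : L) = 0 := CharTwo.two_eq_zero
  refine ⟨![a, b, a + b, c, d, c + d], ?_, ?_, ?_⟩
  · simp only [Fin.sum_univ_six, Matrix.cons_val]
    linear_combination (a + b + c + d) * h2
  · simp only [Fin.sum_univ_six, Matrix.cons_val]
    have e : a * b * (a + b) = c * d * (c + d) := by rw [habπ, hcdπ]
    linear_combination e + (a ^ 3 + b ^ 3 + a ^ 2 * b + a * b ^ 2 + c ^ 3 + d ^ 3 +
      2 * c ^ 2 * d + 2 * c * d ^ 2) * h2
  · simp only [Fin.sum_univ_six, Matrix.cons_val]
    have e : a * b * (a + b) = c * d * (c + d) := by rw [habπ, hcdπ]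
    intro h5
    have hπ0 : a * b * (a + b) ≠ 0 := by
      refine mul_ne_zero (mul_ne_zero ha0 hb0) ?_
      intro h0
      exact hab (by rwa [CharTwo.add_eq_zero] at h0)
    -- the quadratic forms agree
    have h6 : a * b * (a + b) * ((a ^ 2 + a * b + b ^ 2) + (c ^ 2 + c * d + d ^ 2)) = 0 := by
      linear_combination h5 + (c ^ 2 + c * d + d ^ 2) * e -
        ((a ^ 5 + 2 * a ^ 4 * b + 4 * a ^ 3 * b ^ 2 + 4 * a ^ 2 * b ^ 3 + 2 * a * b ^ 4 + b ^ 5) +
        (c ^ 5 + 2 * c ^ 4 * d + 4 * c ^ 3 * d ^ 2 + 4 * c ^ 2 * d ^ 3 + 2 * c * d ^ 4 + d ^ 5)) * h2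
    have h7 : (a ^ 2 + a * b + b ^ 2) + (c ^ 2 + c * d + d ^ 2) = 0 :=
      (mul_eq_zero.1 h6).resolve_left hπ0
    -- `c` is a root of the polynomial of the plane of `a` and `b`
    have hroot : ∀ z, z ^ 3 + (c ^ 2 + c * d + d ^ 2) * z + c * d * (c + d) = 0 →
        (z + a) * (z + b) * (z + (a + b)) = 0 := by
      intro z hz
      linear_combination hz + z * h7 + e +
        ((a + b) * z ^ 2 + a * b * z - (c ^ 2 + c * d + d ^ 2) * z) * h2
    have hc : (c + a) * (c + b) * (c + (a + b)) = 0 := hroot c (by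
      linear_combination (c ^ 3 + c ^ 2 * d + c * d ^ 2) * h2)
    have hd : (d + a) * (d + b) * (d + (a + b)) = 0 := hroot d (by
      linear_combination (d ^ 3 + c ^ 2 * d + c * d ^ 2) * h2)
    simp only [mul_eq_zero, CharTwo.add_eq_zero] at hc hd
    apply hnot
    simp only [Finset.mem_insert, Finset.mem_singleton, Prod.mk.injEq]
    rcases hc with (h | h) | h <;> rcases hd with (h' | h') | h' <;> subst h h' <;> simp_all

end six

/-! ### The property -/

section prop

variable {K : Type} [Field K] [Algebra (ZMod 2) K]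

/-- The linear constraints on six points which hold for the constants, the functions `Tr (a x)` and
the functions `Tr (a x ^ (1 + 2 ^ j))`, `j ∈ J`. -/
def Good (J : Set ℕ) {k : ℕ} (α : Fin k → K) (c : Fin k → ZMod 2) : Prop :=
  ∑ i, c i = 0 ∧ ∑ i, algebraMap (ZMod 2) K (c i) * α i = 0 ∧
    ∀ j ∈ J, ∑ i, algebraMap (ZMod 2) K (c i) * α i ^ (1 + 2 ^ j) = 0

/-- The property. -/
def Prp (K : Type) [Field K] [Algebra (ZMod 2) K] (J : Set ℕ) :
    Submodule (ZMod 2) (K → ZMod 2) where
  carrier := {f | ∀ (α : Fin 6 → K) (c : Fin 6 → ZMod 2), Good J α c → ∑ i, c i * f (α i) = 0}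
  zero_mem' := by intro α c _; simp
  add_mem' := by
    intro f g hf hg α c h
    simp only [Pi.add_apply, mul_add, Finset.sum_add_distrib]
    rw [hf α c h, hg α c h, add_zero]
  smul_mem' := by
    intro r f hf α c h
    have : ∑ i, c i * (r • f) (α i) = r * ∑ i, c i * f (α i) := by
      rw [Finset.mul_sum]
      exact Finset.sum_congr rfl fun i _ => by rw [Pi.smul_apply, smul_eq_mul]; ring
    rw [this, hf α c h, mul_zero]

theorem charTwo (K : Type) [Field K] [Algebra (ZMod 2) K] : CharP K 2 :=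
  charP_of_injective_algebraMap (algebraMap (ZMod 2) K).injective 2

theorem map_pow_two (z : ZMod 2) (j : ℕ) :
    (algebraMap (ZMod 2) K z) ^ (2 ^ j) = algebraMap (ZMod 2) K z := by
  have h : ∀ w : ZMod 2, w ^ 2 = w := by decide
  have h2 : ∀ n : ℕ, z ^ (2 ^ n) = z := by
    intro n
    induction n with
    | zero => simp
    | succ n ih => rw [pow_succ, pow_mul, ih, h]
  rw [← map_pow, h2]

/-- expansion of `∑ c_i (a α_i + b) ^ (1 + 2 ^ j)` -/
theorem expand {k : ℕ} (α : Fin k → K) (c : Fin k → ZMod 2) (h1 : ∑ i, c i = 0)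
    (h2 : ∑ i, algebraMap (ZMod 2) K (c i) * α i = 0) (a b : K) (j : ℕ) :
    ∑ i, algebraMap (ZMod 2) K (c i) * (a * α i + b) ^ (1 + 2 ^ j) =
      a ^ (1 + 2 ^ j) * ∑ i, algebraMap (ZMod 2) K (c i) * α i ^ (1 + 2 ^ j) := by
  have := charTwo K
  have e1 : ∑ i, algebraMap (ZMod 2) K (c i) = 0 := by rw [← map_sum, h1, map_zero]
  have e2 : ∑ i, algebraMap (ZMod 2) K (c i) * α i ^ (2 ^ j) = 0 := by
    have : (∑ i, algebraMap (ZMod 2) K (c i) * α i) ^ (2 ^ j) = 0 := by
      rw [h2, zero_pow (by positivity)]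
    rw [sum_pow_char_pow] at this
    rw [← this]
    exact Finset.sum_congr rfl fun i _ => by rw [mul_pow, map_pow_two]
  have e3 : ∀ i, algebraMap (ZMod 2) K (c i) * (a * α i + b) ^ (1 + 2 ^ j) =
      a ^ (1 + 2 ^ j) * (algebraMap (ZMod 2) K (c i) * α i ^ (1 + 2 ^ j)) +
      (a * b ^ (2 ^ j)) * (algebraMap (ZMod 2) K (c i) * α i) +
      (b * a ^ (2 ^ j)) * (algebraMap (ZMod 2) K (c i) * α i ^ (2 ^ j)) +
      b ^ (1 + 2 ^ j) * algebraMap (ZMod 2) K (c i) := by
    intro i
    rw [pow_add, pow_one, add_pow_char_pow, mul_pow, pow_add a, pow_add b, pow_add (α i)]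
    ring
  simp_rw [e3]
  rw [Finset.sum_add_distrib, Finset.sum_add_distrib, Finset.sum_add_distrib, ← Finset.mul_sum,
    ← Finset.mul_sum, ← Finset.mul_sum, ← Finset.mul_sum, h2, e2, e1]
  ring

theorem Good.comp {J : Set ℕ} {k : ℕ} {α : Fin k → K} {c : Fin k → ZMod 2} (h : Good J α c)
    (a b : K) : Good J (fun i => a * α i + b) c := by
  obtain ⟨h1, h2, h3⟩ := h
  refine ⟨h1, ?_, fun j hj => ?_⟩
  · have e1 : ∑ i, algebraMap (ZMod 2) K (c i) = 0 := by rw [← map_sum, h1, map_zero]
    have : ∑ i, algebraMap (ZMod 2) K (c i) * (a * α i + b) =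
        a * ∑ i, algebraMap (ZMod 2) K (c i) * α i + b * ∑ i, algebraMap (ZMod 2) K (c i) := by
      rw [Finset.mul_sum, Finset.mul_sum, ← Finset.sum_add_distrib]
      exact Finset.sum_congr rfl fun i _ => by ring
    rw [this, h2, e1]; ring
  · rw [expand α c h1 h2, h3 j hj, mul_zero]

theorem affineInvariant (J : Set ℕ) : AffineInvariant (Prp K J) := by
  intro f hf a b _ α c h
  exact hf _ c (h.comp a b)

theorem hasLocal (J : Set ℕ) : HasLocalCharacterization 6 (Prp K J) := by
  refine ⟨{C | ∃ c : Fin 6 → ZMod 2, Good J C.pts c ∧ C.S = {v | ∑ i, c i * v i = 0}}, fun f => ?_⟩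
  constructor
  · rintro hf C ⟨c, hc, hS⟩
    unfold Sat
    rw [hS]
    exact hf C.pts c hc
  · intro h α c hc
    by_cases h0 : c = 0
    · subst h0; simp
    · obtain ⟨i, hi⟩ : ∃ i, c i ≠ 0 := by
        by_contra hcon
        push Not at hcon
        exact h0 (funext hcon)
      have hp : {v : Fin 6 → ZMod 2 | ∑ i, c i * v i = 0} ≠ Set.univ := by
        intro hu
        have h1 : (Pi.single i 1 : Fin 6 → ZMod 2) ∈ {v : Fin 6 → ZMod 2 | ∑ i, c i * v i = 0} := by
          rw [hu]; trivial
        have h2 : ∑ l, c l * (Pi.single i 1 : Fin 6 → ZMod 2) l = 0 := h1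
        rw [Finset.sum_eq_single i] at h2
        · rw [Pi.single_eq_same, mul_one] at h2; exact hi h2
        · intro l _ hl; rw [Pi.single_eq_of_ne hl, mul_zero]
        · intro h3; exact absurd (Finset.mem_univ _) h3
      exact h ⟨α, _, hp⟩ ⟨c, hc, rfl⟩

variable [Finite K]

omit [Finite K] in
theorem trace_sum {k : ℕ} (α : Fin k → K) (c : Fin k → ZMod 2) (a : K) :
    Algebra.trace (ZMod 2) K (a * ∑ i, algebraMap (ZMod 2) K (c i) * α i) =
      ∑ i, c i * Algebra.trace (ZMod 2) K (a * α i) := by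
  rw [Finset.mul_sum, map_sum]
  refine Finset.sum_congr rfl fun i _ => ?_
  rw [← smul_eq_mul (c i), ← map_smul, Algebra.smul_def]
  congr 1; ring

omit [Finite K] in
theorem trace_mem {J : Set ℕ} {j : ℕ} (hj : j ∈ J) (a : K) :
    (fun x : K => Algebra.trace (ZMod 2) K (a * x ^ (1 + 2 ^ j))) ∈ Prp K J := by
  intro α c h
  rw [← trace_sum (fun i => α i ^ (1 + 2 ^ j)) c a, h.2.2 j hj, mul_zero, map_zero]

omit [Finite K] in
theorem lin_mem (J : Set ℕ) (a : K) :
    (fun x : K => Algebra.trace (ZMod 2) K (a * x)) ∈ Prp K J := by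
  intro α c h
  rw [← trace_sum α c a, h.2.1, mul_zero, map_zero]

omit [Finite K] in
theorem const_mem (J : Set ℕ) : (fun _ : K => (1 : ZMod 2)) ∈ Prp K J := by
  intro α c h
  simpa using h.1

theorem eq_zero_of_trace (y : K) (h : ∀ a : K, Algebra.trace (ZMod 2) K (a * y) = 0) : y = 0 := by
  have h1 := (traceForm_nondegenerate (ZMod 2) K).1 y
  apply h1
  intro a
  rw [Algebra.traceForm_apply, mul_comm]
  exact h a

/-- The lower bound for the number of points of a single orbit characterization. -/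
theorem lower {J : Set ℕ} {N : ℕ} (e : Fin N → ℕ) (hJ : ∀ n m, n ≠ m → e n + e m ∈ J)
    (hne : ∀ n, ∃ a : K, (fun x => Algebra.trace (ZMod 2) K (a * x ^ (1 + 2 ^ (2 * e n)))) ∉
      Prp K J) {k : ℕ} (h : HasSingleOrbitCharacterization k (Prp K J)) : N ≤ k := by
  classical
  have := charTwo K
  obtain ⟨C, hC⟩ := h
  set α : Fin k → K := C.pts with hα
  -- the coefficients
  have hc : ∀ n, ∃ c : Fin k → ZMod 2, Good J α c ∧
      ∑ i, algebraMap (ZMod 2) K (c i) * α i ^ (1 + 2 ^ (2 * e n)) ≠ 0 := by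
    intro n
    obtain ⟨g, hg⟩ := hne n
    have h1 := mt (hC _).2 hg
    push Not at h1
    obtain ⟨a, b, ha, hS⟩ := h1
    have hn : (fun i => Algebra.trace (ZMod 2) K (g * (a * α i + b) ^ (1 + 2 ^ (2 * e n)))) ∉
        (Prp K J).map (LinearMap.funLeft (ZMod 2) (ZMod 2) α) := by
      rintro ⟨f, hf, hfe⟩
      apply hS
      have h2 := (hC f).1 hf 1 0 one_ne_zero
      unfold Sat Constraint.comp at h2 ⊢
      simp only [one_mul, add_zero] at h2
      have h3 : (fun i => f (C.pts i)) =
        fun i => Algebra.trace (ZMod 2) K (g * (a * α i + b) ^ (1 + 2 ^ (2 * e n))) := hfe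
      rw [h3] at h2
      exact h2
    obtain ⟨l, hl1, hl2⟩ := Submodule.exists_le_ker_of_notMem hn
    have hform : ∀ v : Fin k → ZMod 2, l v = ∑ i, l (Pi.single i 1) * v i := by
      intro v
      conv_lhs => rw [← Finset.univ_sum_single v]
      rw [map_sum]
      refine Finset.sum_congr rfl fun i _ => ?_
      have : (Pi.single i (v i) : Fin k → ZMod 2) = v i • Pi.single i 1 := by
        rw [← Pi.single_smul, smul_eq_mul, mul_one]
      rw [this, map_smul, smul_eq_mul, mul_comm]
    have hmem : ∀ f ∈ Prp K J, ∑ i, l (Pi.single i 1) * f (α i) = 0 := by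
      intro f hf
      have h2 := hl2 (Submodule.mem_map_of_mem (f := LinearMap.funLeft (ZMod 2) (ZMod 2) α) hf)
      rw [LinearMap.mem_ker, hform] at h2
      exact h2
    have hgood : Good J α (fun i => l (Pi.single i 1)) := by
      refine ⟨?_, ?_, fun j hj => ?_⟩
      · simpa using hmem _ (const_mem J)
      · apply eq_zero_of_trace
        intro r
        rw [trace_sum]
        exact hmem _ (lin_mem J r)
      · apply eq_zero_of_trace
        intro r
        rw [trace_sum (fun i => α i ^ (1 + 2 ^ j))]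
        exact hmem _ (trace_mem hj r)
    refine ⟨_, hgood, fun h0 => hl1 ?_⟩
    rw [hform, ← trace_sum (fun i => (a * α i + b) ^ (1 + 2 ^ (2 * e n))),
      expand α _ hgood.1 hgood.2.1, h0, mul_zero, mul_zero, map_zero]
  choose c hgood hne0 using hc
  -- linear independence
  have hli : LinearIndependent K (fun n : Fin N => (fun i : Fin k => α i ^ (2 ^ e n))) := by
    rw [Fintype.linearIndependent_iff]
    intro g hg m
    have h1 : ∀ i, ∑ n, g n ^ (2 ^ e m) * α i ^ (2 ^ (e n + e m)) = 0 := by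
      intro i
      have h2 := congrFun hg i
      rw [Finset.sum_apply] at h2
      simp only [Pi.smul_apply, smul_eq_mul, Pi.zero_apply] at h2
      have h3 : (∑ n, g n * α i ^ (2 ^ e n)) ^ (2 ^ e m) = 0 := by
        rw [h2, zero_pow (by positivity)]
      rw [sum_pow_char_pow] at h3
      rw [← h3]
      refine Finset.sum_congr rfl fun n _ => ?_
      rw [mul_pow, ← pow_mul, ← pow_add]
    have h2 : ∑ n, g n ^ (2 ^ e m) *
        ∑ i, algebraMap (ZMod 2) K (c m i) * α i ^ (1 + 2 ^ (e n + e m)) = 0 := by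
      have h3 : ∑ i, (algebraMap (ZMod 2) K (c m i) * α i) *
          ∑ n, g n ^ (2 ^ e m) * α i ^ (2 ^ (e n + e m)) = 0 :=
        Finset.sum_eq_zero fun i _ => by rw [h1 i, mul_zero]
      rw [← h3]
      simp_rw [Finset.mul_sum]
      rw [Finset.sum_comm]
      refine Finset.sum_congr rfl fun i _ => Finset.sum_congr rfl fun n _ => ?_
      rw [pow_add (α i), pow_one]; ring
    rw [Finset.sum_eq_single m] at h2
    · have h3 : ∑ i, algebraMap (ZMod 2) K (c m i) * α i ^ (1 + 2 ^ (e m + e m)) ≠ 0 := by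
        rw [← two_mul]; exact hne0 m
      exact pow_eq_zero_iff (by positivity) |>.1 ((mul_eq_zero.1 h2).resolve_right h3)
    · intro n _ hn
      rw [(hgood m).2.2 _ (hJ n m hn), mul_zero]
    · intro h3; exact absurd (Finset.mem_univ _) h3
  have := hli.fintype_card_le_finrank
  simpa using this

/-- The property has a single orbit characterization, with all points of the field, if it is not
the set of all functions. -/
theorem exists_single {J : Set ℕ} (hJ : ∃ f : K → ZMod 2, f ∉ Prp K J) :
    ∃ k, HasSingleOrbitCharacterization k (Prp K J) := by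
  classical
  have := Fintype.ofFinite K
  let en := Fintype.equivFin K
  have hp : {v : Fin (Fintype.card K) → ZMod 2 | (fun x => v (en x)) ∈ Prp K J} ≠ Set.univ := by
    intro hu
    obtain ⟨f, hf⟩ := hJ
    have h1 : (fun i => f (en.symm i)) ∈
      {v : Fin (Fintype.card K) → ZMod 2 | (fun x => v (en x)) ∈ Prp K J} := by rw [hu]; trivial
    apply hf
    have h2 : (fun x => f (en.symm (en x))) ∈ Prp K J := h1
    simpa using h2
  refine ⟨Fintype.card K, ⟨fun i => en.symm i, _, hp⟩, fun f => ⟨fun hf a b ha => ?_, fun h => ?_⟩⟩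
  · show (fun x => f (a * en.symm (en x) + b)) ∈ Prp K J
    simpa using affineInvariant J f hf a b ha
  · have h1 : (fun x => f (1 * en.symm (en x) + 0)) ∈ Prp K J := h 1 0 one_ne_zero
    simpa using h1

end prop

/-! ### The choice of the parameters -/

theorem pow_mod {L : Type} [Field L] [Finite L] {m : ℕ} (hL : Nat.card L = 2 ^ m) (x : L) {j r : ℕ}
    (h : j ≡ r [MOD m]) : x ^ (2 ^ j) = x ^ (2 ^ r) := by
  have := Fintype.ofFinite L
  have hcard : Fintype.card L = 2 ^ m := by rw [← Nat.card_eq_fintype_card, hL]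
  have key : ∀ n : ℕ, x ^ (2 ^ n) = x ^ (2 ^ (n % m)) := by
    intro n
    conv_lhs => rw [← Nat.div_add_mod n m, pow_add, pow_mul, pow_mul 2 m, ← hcard,
      FiniteField.pow_card_pow]
  rw [key j, key r, h]

theorem sum_mod {L : Type} [Field L] [Finite L] {m : ℕ} (hL : Nat.card L = 2 ^ m) (x : Fin 6 → L)
    {j r : ℕ} (h : j ≡ r [MOD m]) : ∑ i, x i ^ (1 + 2 ^ j) = ∑ i, x i ^ (1 + 2 ^ r) :=
  Finset.sum_congr rfl fun i _ => by rw [pow_add, pow_add (x i) 1 (2 ^ r), pow_mod hL (x i) h]

theorem sum_zero {L : Type} [Field L] [Finite L] [CharP L 2] {m : ℕ} (hL : Nat.card L = 2 ^ m)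
    (x : Fin 6 → L) (h1 : ∑ i, x i = 0) {j : ℕ} (h : j ≡ 0 [MOD m]) :
    ∑ i, x i ^ (1 + 2 ^ j) = 0 := by
  rw [sum_mod hL x h]
  have : ∑ i, x i ^ 2 = 0 := by rw [← CharTwo.sum_sq, h1, zero_pow (by norm_num)]
  exact this

theorem sum_one {L : Type} [Field L] [Finite L] {m : ℕ} (hL : Nat.card L = 2 ^ m)
    (x : Fin 6 → L) (h1 : ∑ i, x i ^ 3 = 0) {j : ℕ} (h : j ≡ 1 [MOD m]) :
    ∑ i, x i ^ (1 + 2 ^ j) = 0 := by
  rw [sum_mod hL x h]
  exact h1

theorem sum_two {L : Type} [Field L] [Finite L] {m : ℕ} (hL : Nat.card L = 2 ^ m)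
    (x : Fin 6 → L) {j : ℕ} (h : j ≡ 2 [MOD m]) :
    ∑ i, x i ^ (1 + 2 ^ j) = ∑ i, x i ^ 5 := by
  rw [sum_mod hL x h]
  norm_num

theorem six_ones : ∑ _i : Fin 6, (1 : ZMod 2) = 0 := by decide

/-- Main theorem. For every `N` there are a field with `2 ^ t` elements and an affine-invariant
property of functions from it to the field with two elements, which has a 6-local characterization
and whose least locality of a single orbit characterization is greater than `N`. -/
theorem result (N : ℕ) : ∃ t : ℕ, 2 ≤ t ∧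
    ∃ P : Submodule (ZMod 2) (GaloisField 2 t → ZMod 2),
      AffineInvariant P ∧ HasLocalCharacterization 6 P ∧
        (∃ k, HasSingleOrbitCharacterization k P) ∧ N < kPrime P := by
  classical
  set m : Fin (N + 1) → ℕ := fun n => Nat.fermatNumber (n + 1) with hm
  have hm5 : ∀ n, 5 ≤ m n := fun n => by
    have := Nat.fermatNumber_mono (show 1 ≤ (n : ℕ) + 1 by omega)
    simpa using this
  have hcop : ∀ n l, n ≠ l → (m n).Coprime (m l) := fun n l hnl =>
    Nat.coprime_fermatNumber_fermatNumber (by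
      intro h; apply hnl; ext; omega)
  set t : ℕ := ∏ n, m n with ht
  have ht5 : 5 ≤ t := by
    have h1 : m 0 ∣ t := Finset.dvd_prod_of_mem m (Finset.mem_univ 0)
    have h2 : 0 < t := Finset.prod_pos fun n _ => by have := hm5 n; omega
    exact (hm5 0).trans (Nat.le_of_dvd h2 h1)
  have he : ∀ n : Fin (N + 1), ∃ e : ℕ, ∀ l, e ≡ (if l = n then 1 else 0) [MOD m l] := by
    intro n
    have h1 := Nat.chineseRemainderOfFinset (fun l => if l = n then 1 else 0) m Finset.univ
      (fun l _ => by have := hm5 l; omega) (fun a _ b _ hab => hcop a b hab)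
    exact ⟨h1.1, fun l => h1.2 l (Finset.mem_univ _)⟩
  choose e he using he
  set J : Set ℕ := {j | ∃ a b, a ≠ b ∧ j = e a + e b} with hJ
  have hne : ∀ n, ∃ a : GaloisField 2 t,
      (fun x => Algebra.trace (ZMod 2) (GaloisField 2 t) (a * x ^ (1 + 2 ^ (2 * e n)))) ∉
      Prp (GaloisField 2 t) J := by
    intro n
    have hL : Nat.card (GaloisField 2 (m n)) = 2 ^ m n :=
      GaloisField.card 2 (m n) (by have := hm5 n; omega)
    have hLcard : 16 ≤ Nat.card (GaloisField 2 (m n)) := by
      rw [hL]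
      calc 16 = 2 ^ 4 := by norm_num
        _ ≤ 2 ^ m n := Nat.pow_le_pow_right (by norm_num) (by have := hm5 n; omega)
    obtain ⟨x, hx1, hx3, hx5⟩ := six_points hLcard
    have hι : Nonempty (GaloisField 2 (m n) →ₐ[ZMod 2] GaloisField 2 t) := by
      apply FiniteField.nonempty_algHom_of_finrank_dvd
      rw [GaloisField.finrank 2 (by have := hm5 n; omega), GaloisField.finrank 2 (by omega)]
      exact Finset.dvd_prod_of_mem m (Finset.mem_univ n)
    obtain ⟨ι⟩ := hι
    have hgood : Good J (fun i => ι (x i)) (fun _ => (1 : ZMod 2)) := by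
      refine ⟨six_ones, ?_, ?_⟩
      · simp only [map_one, one_mul]
        rw [← map_sum, hx1, map_zero]
      · rintro j ⟨a, b, hab, rfl⟩
        simp only [map_one, one_mul]
        simp_rw [← map_pow]
        rw [← map_sum]
        have hab' : ∑ i, x i ^ (1 + 2 ^ (e a + e b)) = 0 := by
          have ha := he a n
          have hb := he b n
          by_cases han : n = a
          · have hbn : n ≠ b := by rw [han]; exact hab
            rw [if_pos han] at ha
            rw [if_neg hbn] at hb
            exact sum_one hL x hx3 (ha.add hb)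
          · rw [if_neg han] at ha
            by_cases hbn : n = b
            · rw [if_pos hbn] at hb
              exact sum_one hL x hx3 (ha.add hb)
            · rw [if_neg hbn] at hb
              exact sum_zero hL x hx1 (ha.add hb)
        rw [hab', map_zero]
    by_contra hcon
    push Not at hcon
    apply hx5
    have h1 : ∑ i, algebraMap (ZMod 2) (GaloisField 2 t) 1 * (ι (x i)) ^ (1 + 2 ^ (2 * e n)) = 0 := by
      apply eq_zero_of_trace
      intro a
      rw [trace_sum (fun i => (ι (x i)) ^ (1 + 2 ^ (2 * e n))) (fun _ => 1) a]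
      exact hcon a _ _ hgood
    simp only [map_one, one_mul] at h1
    simp_rw [← map_pow] at h1
    rw [← map_sum, map_eq_zero] at h1
    have h2 : 2 * e n ≡ 2 [MOD m n] := by
      have := he n n
      rw [if_pos rfl] at this
      exact this.mul_left 2
    rw [← sum_two hL x h2]
    exact h1
  refine ⟨t, by omega, Prp _ J, affineInvariant J, hasLocal J, ?_, ?_⟩
  · obtain ⟨a, ha⟩ := hne 0
    exact exists_single ⟨_, ha⟩
  · have h1 : (Set.Nonempty {k | HasSingleOrbitCharacterization k (Prp (GaloisField 2 t) J)}) := by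
      obtain ⟨a, ha⟩ := hne 0
      exact exists_single ⟨_, ha⟩
    have h2 := Nat.sInf_mem h1
    have h3 : N + 1 ≤ _ := lower e (J := J) (fun a b hab => ⟨a, b, hab, rfl⟩) hne h2
    exact h3

end Pool.Agent.Results.MP_cb1103_lc.UnboundedOrbitLocality
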